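import Pool.Agent.Lib.MP_dcf9ac_co.H69.Transport

/-!
# Disjoint cliques
-/

set_option autoImplicit false

namespace Pool.Agent.MP_dcf9ac.H69

open Classical in
/-- small degrees give a small 2-density -/
theorem dens_le_of_deg {V : Type} [Fintype V] (G : SimpleGraph V) (k : ℕ)
    (h : ∀ u, ((Finset.univ : Finset V).filter fun w => G.Adj u w).card + 1 ≤ k) :
    ∀ x ∈ dens G, x ≤ ((k : ℝ) + 1) / 2 := by
  apply dens_le
  intro S hS
  have h1 : ∀ u ∈ S, (S.filter fun w => G.Adj u w).card ≤ k - 1 := by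
    intro u _
    have h2 : (S.filter fun w => G.Adj u w).card ≤
        ((Finset.univ : Finset V).filter fun w => G.Adj u w).card :=
      Finset.card_le_card (Finset.filter_subset_filter _ (Finset.subset_univ S))
    have := h u
    omega
  have h2 : ∀ u ∈ S, (S.filter fun w => G.Adj u w).card ≤ S.card - 1 := by
    intro u hu
    have h3 : (S.filter fun w => G.Adj u w) ⊆ S.erase u := by
      intro w hw
      obtain ⟨hw1, hw2⟩ := Finset.mem_filter.1 hw
      exact Finset.mem_erase.2 ⟨hw2.ne', hw1⟩
    have h4 := Finset.card_le_card h3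
    rwa [Finset.card_erase_of_mem hu] at h4
  have h3 : (3 : ℝ) ≤ S.card := by exact_mod_cast hS
  have hk1 : 1 ≤ k := by
    obtain ⟨u, hu⟩ : S.Nonempty := Finset.card_pos.1 (by omega)
    have := h u
    omega
  have hk1' : (1 : ℝ) ≤ k := by exact_mod_cast hk1
  rcases Nat.lt_or_ge k S.card with hc | hc
  · have h5 := Finset.sum_le_card_nsmul S _ _ h1
    rw [smul_eq_mul] at h5
    have h6 : ((∑ u ∈ S, (S.filter fun w => G.Adj u w).card : ℕ) : ℝ) ≤ S.card * ((k : ℝ) - 1) := by
      have : ((k - 1 : ℕ) : ℝ) = (k : ℝ) - 1 := by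
        rw [Nat.cast_sub hk1]
        simp
      rw [← this]
      exact_mod_cast h5
    have hc' : (k : ℝ) + 1 ≤ S.card := by exact_mod_cast hc
    nlinarith
  · have h5 := Finset.sum_le_card_nsmul S _ _ h2
    rw [smul_eq_mul] at h5
    have h6 : ((∑ u ∈ S, (S.filter fun w => G.Adj u w).card : ℕ) : ℝ) ≤
        S.card * ((S.card : ℝ) - 1) := by
      have : ((S.card - 1 : ℕ) : ℝ) = (S.card : ℝ) - 1 := by
        rw [Nat.cast_sub (by omega)]
        simp
      rw [← this]
      exact_mod_cast h5
    have hc' : (S.card : ℝ) ≤ k := by exact_mod_cast hc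
    nlinarith

/-- `a` disjoint cliques of size `k` -/
def cliques (k a : ℕ) : SimpleGraph (Fin (k * a)) where
  Adj u w := u ≠ w ∧ (u : ℕ) / k = (w : ℕ) / k
  symm := ⟨fun _ _ h => ⟨h.1.symm, h.2.symm⟩⟩
  loopless := ⟨fun _ h => h.1 rfl⟩

theorem cliques_indep (k a : ℕ) (hk : 1 ≤ k) : (cliques k a).indepNum ≤ a := by
  classical
  obtain ⟨s, hs⟩ := (cliques k a).exists_isNIndepSet_indepNum
  rw [← hs.card_eq]
  have h1 : s.card ≤ (Finset.range a).card := by
    apply Finset.card_le_card_of_injOn fun u : Fin (k * a) => (u : ℕ) / k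
    · intro u _
      refine Finset.mem_coe.2 (Finset.mem_range.2 ?_)
      exact Nat.div_lt_of_lt_mul u.isLt
    · intro u hu w hw h
      by_contra hne
      exact hs.isIndepSet hu hw hne ⟨hne, h⟩
  rwa [Finset.card_range] at h1

theorem cliques_dens (k a : ℕ) (hk : 1 ≤ k) :
    ∀ x ∈ dens (cliques k a), x ≤ ((k : ℝ) + 1) / 2 := by
  classical
  apply dens_le_of_deg
  intro u
  have hu : u ∉ (Finset.univ : Finset (Fin (k * a))).filter fun w => (cliques k a).Adj u w := by
    intro h
    exact (cliques k a).irrefl (Finset.mem_filter.1 h).2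
  have h1 : (insert u ((Finset.univ : Finset (Fin (k * a))).filter
      fun w => (cliques k a).Adj u w)).card ≤ (Finset.range k).card := by
    apply Finset.card_le_card_of_injOn fun w : Fin (k * a) => (w : ℕ) % k
    · intro w _
      exact Finset.mem_coe.2 (Finset.mem_range.2 (Nat.mod_lt _ hk))
    · intro w hw w' hw' h
      have e : ∀ w : Fin (k * a), w ∈ insert u ((Finset.univ : Finset (Fin (k * a))).filter
          fun w => (cliques k a).Adj u w) → (w : ℕ) / k = (u : ℕ) / k := by
        intro w hw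
        rcases Finset.mem_insert.1 hw with h2 | h2
        · rw [h2]
        · exact (Finset.mem_filter.1 h2).2.2.symm
      have e1 := e w (Finset.mem_coe.1 hw)
      have e2 := e w' (Finset.mem_coe.1 hw')
      apply Fin.ext
      rw [← Nat.div_add_mod (w : ℕ) k, ← Nat.div_add_mod (w' : ℕ) k, e1, e2]
      congr 1
  rw [Finset.card_insert_of_notMem hu, Finset.card_range] at h1
  exact h1

end Pool.Agent.MP_dcf9ac.H69
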