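import Pool.Agent.Lib.MP_dcf9ac_co.H69.Graph

/-!
# Edge counts of subgraphs
-/

set_option autoImplicit false

namespace Pool.Agent.MP_dcf9ac.H69

open Classical in
/-- twice the number of edges of a subgraph is at most the number of ordered adjacent pairs -/
theorem edge_le {V : Type} [Fintype V] (G : SimpleGraph V) (H : G.Subgraph) (S : Finset V)
    (hS : (S : Set V) = H.verts) :
    2 * H.edgeSet.ncard ≤ ∑ u ∈ S, (S.filter fun w => G.Adj u w).card := by
  set P : Finset (V × V) := (S ×ˢ S).filter fun p => G.Adj p.1 p.2 with hP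
  have hsum : ∑ u ∈ S, (S.filter fun w => G.Adj u w).card = P.card := by
    rw [hP, Finset.card_filter, Finset.sum_product]
    apply Finset.sum_congr rfl
    intro u _
    rw [Finset.card_filter]
  rw [hsum]
  set T : Finset (Sym2 V) := H.edgeSet.toFinset with hT
  have hTc : H.edgeSet.ncard = T.card := by
    rw [hT, Set.ncard_eq_toFinset_card']
  rw [hTc]
  set f : V × V → Sym2 V := fun p => s(p.1, p.2) with hf
  set P' : Finset (V × V) := P.filter fun p => f p ∈ T with hP'
  have h1 : 2 * T.card ≤ P'.card := by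
    apply Finset.mul_card_image_le_card_of_maps_to (f := f)
    · intro p hp
      exact (Finset.mem_filter.1 hp).2
    · intro b hb
      induction b using Sym2.ind with
      | _ x y =>
        have hxy : H.Adj x y := by
          rw [hT, Set.mem_toFinset] at hb
          exact hb
        have hne : x ≠ y := hxy.ne
        have hx : x ∈ S := by
          have := H.edge_vert hxy
          rw [← hS] at this
          exact this
        have hy : y ∈ S := by
          have := H.edge_vert hxy.symm
          rw [← hS] at this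
          exact this
        have hsub : ({(x, y), (y, x)} : Finset (V × V)) ⊆ P'.filter fun p => f p = s(x, y) := by
          intro p hp
          rw [Finset.mem_insert, Finset.mem_singleton] at hp
          rw [Finset.mem_filter, hP', Finset.mem_filter, hP, Finset.mem_filter, Finset.mem_product]
          rcases hp with rfl | rfl
          · exact ⟨⟨⟨⟨hx, hy⟩, hxy.adj_sub⟩, hb⟩, rfl⟩
          · refine ⟨⟨⟨⟨hy, hx⟩, hxy.symm.adj_sub⟩, ?_⟩, ?_⟩
            · simp only [hf]
              rw [Sym2.eq_swap]
              exact hb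
            · simp only [hf]
              exact Sym2.eq_swap
        have hcard : ({(x, y), (y, x)} : Finset (V × V)).card = 2 := by
          rw [Finset.card_pair]
          intro h
          exact hne (Prod.ext_iff.1 h).1
        rw [← hcard]
        exact Finset.card_le_card hsub
  exact h1.trans (Finset.card_filter_le _ _)

/-- the set of 2-densities of the subgraphs -/
def dens {V : Type} (G : SimpleGraph V) : Set ℝ :=
  {x | ∃ H : G.Subgraph, 3 ≤ H.verts.ncard ∧
    x = ((H.edgeSet.ncard : ℝ) - 1) / ((H.verts.ncard : ℝ) - 2)}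

open Classical in
/-- bound for the densities from a bound for the ordered adjacent pairs -/
theorem dens_le {V : Type} [Fintype V] (G : SimpleGraph V) (c : ℝ)
    (h : ∀ S : Finset V, 3 ≤ S.card →
      ((∑ u ∈ S, (S.filter fun w => G.Adj u w).card : ℕ) : ℝ) - 2 ≤ 2 * c * (S.card - 2)) :
    ∀ x ∈ dens G, x ≤ c := by
  rintro x ⟨H, hH, rfl⟩
  set S : Finset V := H.verts.toFinset with hS
  have hSc : H.verts.ncard = S.card := by
    rw [hS, Set.ncard_eq_toFinset_card']
  rw [hSc] at hH ⊢
  have h1 := h S hH
  have h2 := edge_le G H S (by rw [hS]; simp)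
  have h2' : (2 : ℝ) * H.edgeSet.ncard ≤ ((∑ u ∈ S, (S.filter fun w => G.Adj u w).card : ℕ) : ℝ) := by
    exact_mod_cast h2
  have h3 : (3 : ℝ) ≤ S.card := by exact_mod_cast hH
  rw [div_le_iff₀ (by linarith)]
  linarith

open Classical in
theorem exists_triangle_dens {V : Type} [Fintype V] (G : SimpleGraph V) {x y z : V}
    (hxy : G.Adj x y) (hxz : G.Adj x z) (hyz : G.Adj y z) : ∃ d ∈ dens G, 2 ≤ d := by
  set H : G.Subgraph := (⊤ : G.Subgraph).induce {x, y, z} with hH
  have hv : H.verts = ({x, y, z} : Set V) := by simp [hH]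
  have hcard : H.verts.ncard = 3 := by
    rw [hv, Set.ncard_eq_toFinset_card']
    simp only [Set.toFinset_insert, Set.toFinset_singleton]
    rw [Finset.card_eq_three]
    exact ⟨x, y, z, hxy.ne, hxz.ne, hyz.ne, rfl⟩
  have hsub : ({s(x, y), s(x, z), s(y, z)} : Set (Sym2 V)) ⊆ H.edgeSet := by
    intro e he
    rcases he with rfl | rfl | rfl
    · rw [SimpleGraph.Subgraph.mem_edgeSet, hH, SimpleGraph.Subgraph.induce_adj]
      exact ⟨by simp, by simp, by simpa using hxy⟩
    · rw [SimpleGraph.Subgraph.mem_edgeSet, hH, SimpleGraph.Subgraph.induce_adj]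
      exact ⟨by simp, by simp, by simpa using hxz⟩
    · rw [SimpleGraph.Subgraph.mem_edgeSet, hH, SimpleGraph.Subgraph.induce_adj]
      exact ⟨by simp, by simp, by simpa using hyz⟩
  have h3 : ({s(x, y), s(x, z), s(y, z)} : Set (Sym2 V)).ncard = 3 := by
    rw [Set.ncard_eq_toFinset_card']
    simp only [Set.toFinset_insert, Set.toFinset_singleton]
    rw [Finset.card_eq_three]
    refine ⟨s(x, y), s(x, z), s(y, z), ?_, ?_, ?_, rfl⟩
    · intro h
      rcases Sym2.eq_iff.1 h with ⟨-, h⟩ | ⟨h, -⟩
      · exact hyz.ne h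
      · exact hxz.ne h
    · intro h
      rcases Sym2.eq_iff.1 h with ⟨h, -⟩ | ⟨h, -⟩
      · exact hxy.ne h
      · exact hxz.ne h
    · intro h
      rcases Sym2.eq_iff.1 h with ⟨h, -⟩ | ⟨h, -⟩
      · exact hxy.ne h
      · exact hxz.ne h
  have h4 : 3 ≤ H.edgeSet.ncard := by
    rw [← h3]
    exact Set.ncard_le_ncard hsub (Set.toFinite _)
  refine ⟨_, ⟨H, hcard.ge, rfl⟩, ?_⟩
  have h5 : (3 : ℝ) ≤ H.edgeSet.ncard := by exact_mod_cast h4
  rw [hcard]
  norm_num
  linarith

end Pool.Agent.MP_dcf9ac.H69
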