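import Pool.Agent.Lib.MP_dcf9ac_co.H69.Local

/-!
# Summation around the cycle
-/

set_option autoImplicit false

namespace Pool.Agent.MP_dcf9ac.H69

variable {k a : ℕ} [NeZero a]

theorem nos_or (E : Finset (Fin k)) : NoS E ∨ ∃ p ∈ E, (p : ℕ) < 2 := by
  by_cases h : ∃ p ∈ E, (p : ℕ) < 2
  · exact Or.inr h
  · left
    intro p hp
    by_contra hc
    exact h ⟨p, hp, by omega⟩

/-- case 1: every part contains a special vertex -/
theorem sum_wrap (hk : 3 ≤ k) (F : ZMod a → Finset (Fin k))
    (h : ∀ i, ∃ p ∈ F i, (p : ℕ) < 2) : 2 * (a : ℤ) ≤ ∑ i, cc (F (i - 1)) (F i) := by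
  have h1 : ∀ i : ZMod a, (2 : ℤ) ≤ cc (F (i - 1)) (F i) := by
    intro i
    obtain ⟨p, hp, -⟩ := h i
    exact cc_ge_two hk _ _ ⟨p, hp⟩
  have h2 : ∑ _i : ZMod a, (2 : ℤ) ≤ ∑ i, cc (F (i - 1)) (F i) :=
    Finset.sum_le_sum fun i _ => h1 i
  rw [Finset.sum_const, Finset.card_univ, ZMod.card] at h2
  simpa [mul_comm] using h2

/-- If every nonempty part other than `i` has a special vertex in the part before it, and some
part other than `i` is nonempty, then the part `i + 1` is nonempty. -/
theorem next_nonempty (F : ZMod a → Finset (Fin k)) (i j : ZMod a) (hij : j ≠ i)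
    (hj : (F j).Nonempty)
    (h : ∀ l, l ≠ i → (F l).Nonempty → ∃ p ∈ F (l - 1), (p : ℕ) < 2) :
    (F (i + 1)).Nonempty := by
  -- descend from `j` to `i + 1`
  have key : ∀ m : ℕ, ∀ j : ZMod a, j = i + 1 + m → (∀ m' : ℕ, m' ≤ m → i + 1 + (m' : ZMod a) ≠ i) →
      (F j).Nonempty → (F (i + 1)).Nonempty := by
    intro m
    induction m with
    | zero =>
      intro j hj _ hne
      rw [hj] at hne
      simpa using hne
    | succ m ih =>
      intro j hj hm hne
      have hji : j ≠ i := by
        rw [hj]
        exact hm (m + 1) le_rfl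
      obtain ⟨p, hp, -⟩ := h j hji hne
      refine ih (j - 1) ?_ (fun m' hm' => hm m' (by omega)) ⟨p, hp⟩
      rw [hj]
      push_cast
      ring
  -- the representative of `j - (i + 1)`
  refine key (j - (i + 1)).val j ?_ ?_ hj
  · rw [ZMod.natCast_zmod_val]
    ring
  · intro m' hm' hc
    have h1 : ((m' + 1 : ℕ) : ZMod a) = 0 := by
      push_cast
      linear_combination hc
    have h2 : a ∣ m' + 1 := (ZMod.natCast_eq_zero_iff _ _).1 h1
    have h3 : (j - (i + 1)).val < a := ZMod.val_lt _
    have h4 : m' + 1 = a := Nat.eq_of_dvd_of_lt_two_mul (by omega) h2 (by omega)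
    have h5 : (j - (i + 1)).val = a - 1 := by omega
    apply hij
    have h6 : j - (i + 1) = ((a - 1 : ℕ) : ZMod a) := by
      rw [← h5, ZMod.natCast_zmod_val]
    have h7 : ((a - 1 : ℕ) : ZMod a) = -1 := by
      have h8 : ((a - 1 + 1 : ℕ) : ZMod a) = 0 := by
        rw [Nat.sub_add_cancel (NeZero.one_le)]
        exact ZMod.natCast_self a
      push_cast at h8
      linear_combination h8
    rw [h7] at h6
    linear_combination h6

/-- case 2: some part has no special vertex -/
theorem sum_nowrap (hk : 3 ≤ k) (ha : 2 ≤ a) (F : ZMod a → Finset (Fin k)) (i0 : ZMod a)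
    (h0 : NoS (F i0)) (hcard : 3 ≤ ∑ i, (F i).card) :
    2 * (∑ i, (F i).card : ℕ) + 2 * (k : ℤ) ^ 2 - 4 ≤ k * ∑ i, cc (F (i - 1)) (F i) := by
  set w : ZMod a → ℤ := fun i => (k : ℤ) * cc (F (i - 1)) (F i) - 2 * (F i).card with hw
  have hwn : ∀ i, 0 ≤ w i := fun i => w_nonneg hk _ _
  have hgoal : 2 * (k : ℤ) ^ 2 - 4 ≤ ∑ i, w i := by
    -- a start: a nonempty part without special vertex in the part before
    have hstart : ∃ i, (F i).Nonempty ∧ NoS (F (i - 1)) := by
      by_contra hno
      push Not at hno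
      have hall : ∀ m : ℕ, ∀ j : ZMod a, (F j).Nonempty → (F (j - m)).Nonempty := by
        intro m
        induction m with
        | zero =>
          intro j hj
          simpa using hj
        | succ m ih =>
          intro j hj
          have h1 := ih j hj
          rcases nos_or (F (j - m - 1)) with h2 | ⟨p, hp, -⟩
          · exact absurd h2 (hno _ h1)
          · refine ⟨p, ?_⟩
            have : j - ((m + 1 : ℕ) : ZMod a) = j - m - 1 := by
              push_cast
              ring
            rw [this]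
            exact hp
      obtain ⟨j, hj⟩ : ∃ j, (F j).Nonempty := by
        by_contra hno2
        push Not at hno2
        have : ∑ i, (F i).card = 0 := by
          apply Finset.sum_eq_zero
          intro i _
          rw [hno2 i, Finset.card_empty]
        omega
      have h3 : (F (i0 + 1)).Nonempty := by
        have h4 := hall (j - (i0 + 1)).val j hj
        rw [ZMod.natCast_zmod_val] at h4
        have : j - (j - (i0 + 1)) = i0 + 1 := by ring
        rwa [this] at h4
      apply hno _ h3
      rw [add_sub_cancel_right]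
      exact h0
    obtain ⟨i, hi, hi1⟩ := hstart
    rcases Nat.lt_or_ge (F i).card 2 with hc | hc
    · -- exactly one vertex
      have hc1 : (F i).card = 1 := by
        have := hi.card_pos
        omega
      have hwi : (k : ℤ) ^ 2 + k - 2 ≤ w i := w_start_one hi1 hc1
      -- another nonempty part
      obtain ⟨j, hji, hj⟩ : ∃ j, j ≠ i ∧ (F j).Nonempty := by
        by_contra hno2
        push Not at hno2
        have h5 : ∑ l, (F l).card = (F i).card := by
          apply Finset.sum_eq_single_of_mem i (Finset.mem_univ _)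
          intro l _ hl
          rw [hno2 l hl, Finset.card_empty]
        omega
      have hother : ∃ l, l ≠ i ∧ (k : ℤ) ^ 2 - k - 2 ≤ w l := by
        have hk' : (3 : ℤ) ≤ k := by exact_mod_cast hk
        by_cases hex : ∃ l, l ≠ i ∧ (F l).Nonempty ∧ NoS (F (l - 1))
        · obtain ⟨l, hl, hl1, hl2⟩ := hex
          refine ⟨l, hl, ?_⟩
          rcases Nat.lt_or_ge (F l).card 2 with hd | hd
          · have hd1 : (F l).card = 1 := by
              have := hl1.card_pos
              omega
            have := w_start_one hl2 hd1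
            have h6 : (k : ℤ) ^ 2 + k - 2 ≤ w l := this
            linarith
          · have h6 : 2 * (k : ℤ) ^ 2 - 4 ≤ w l := w_start_two hk hl2 hd
            nlinarith
        · push Not at hex
          have hn : (F (i + 1)).Nonempty := by
            apply next_nonempty F i j hji hj
            intro l hl hl1
            rcases nos_or (F (l - 1)) with h7 | h7
            · exact absurd h7 (hex l hl hl1)
            · exact h7
          refine ⟨i + 1, ?_, ?_⟩
          · intro hcon
            have h8 : (1 : ZMod a) = 0 := by linear_combination hcon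
            have h9 : ((1 : ℕ) : ZMod a) = 0 := by exact_mod_cast h8
            have h10 := (ZMod.natCast_eq_zero_iff _ _).1 h9
            have := Nat.le_of_dvd one_pos h10
            omega
          · have h11 := w_next hk hc1 hn
            have h12 : w (i + 1) = (k : ℤ) * cc (F i) (F (i + 1)) - 2 * (F (i + 1)).card := by
              simp only [hw, add_sub_cancel_right]
            rw [h12]
            exact h11
      obtain ⟨l, hl, hwl⟩ := hother
      have h13 : w i + w l ≤ ∑ i, w i := by
        have h14 : ∑ x ∈ ({i, l} : Finset (ZMod a)), w x = w i + w l :=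
          Finset.sum_pair (Ne.symm hl)
        rw [← h14]
        exact Finset.sum_le_sum_of_subset_of_nonneg (Finset.subset_univ _) fun x _ _ => hwn x
      nlinarith
    · have hwi : 2 * (k : ℤ) ^ 2 - 4 ≤ w i := w_start_two hk hi1 hc
      exact hwi.trans (Finset.single_le_sum (f := w) (fun x _ => hwn x) (Finset.mem_univ i))
  have hsum : ∑ i, w i = k * ∑ i, cc (F (i - 1)) (F i) - 2 * (∑ i, (F i).card : ℕ) := by
    simp only [hw, Finset.sum_sub_distrib, Finset.mul_sum]
    push_cast
    rw [Finset.mul_sum]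
  rw [hsum] at hgoal
  linarith

/-- The sparsity inequality in integer form. -/
theorem sparsity (hk : 3 ≤ k) (ha : k ≤ a) (F : ZMod a → Finset (Fin k))
    (hcard : 3 ≤ ∑ i, (F i).card) :
    2 * ((a : ℤ) - k) * ((∑ i, (F i).card : ℕ) - 2) ≤
      ((k : ℤ) * a - 2) * (∑ i, cc (F (i - 1)) (F i) - 2 * k) := by
  have hk' : (3 : ℤ) ≤ k := by exact_mod_cast hk
  have ha' : (k : ℤ) ≤ a := by exact_mod_cast ha
  have hN : (0 : ℤ) ≤ (k : ℤ) * a - 2 := by nlinarith
  by_cases h : ∀ i, ∃ p ∈ F i, (p : ℕ) < 2
  · have h1 := sum_wrap hk F h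
    have h2 : (∑ i, (F i).card : ℕ) ≤ k * a := by
      calc ∑ i, (F i).card ≤ ∑ _i : ZMod a, k := Finset.sum_le_sum fun i _ => card_le_k _
        _ = k * a := by
          rw [Finset.sum_const, Finset.card_univ, ZMod.card, smul_eq_mul, mul_comm]
    have h2' : ((∑ i, (F i).card : ℕ) : ℤ) ≤ k * a := by exact_mod_cast h2
    have h3 : 2 * ((a : ℤ) - k) ≤ ∑ i, cc (F (i - 1)) (F i) - 2 * k := by linarith
    calc 2 * ((a : ℤ) - k) * ((∑ i, (F i).card : ℕ) - 2)
        ≤ 2 * ((a : ℤ) - k) * ((k : ℤ) * a - 2) :=
          mul_le_mul_of_nonneg_left (by linarith) (by linarith)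
      _ ≤ (∑ i, cc (F (i - 1)) (F i) - 2 * k) * ((k : ℤ) * a - 2) :=
          mul_le_mul_of_nonneg_right h3 hN
      _ = _ := by ring
  · push Not at h
    obtain ⟨i0, h0⟩ := h
    have h1 := sum_nowrap hk (by omega) F i0 h0 hcard
    have h2 : (3 : ℤ) ≤ (∑ i, (F i).card : ℕ) := by exact_mod_cast hcard
    set T : ℤ := ∑ i, cc (F (i - 1)) (F i)
    set v : ℤ := ((∑ i, (F i).card : ℕ) : ℤ)
    have h3 : 2 * (v - 2) ≤ k * (T - 2 * k) := by nlinarith
    have h4 : 0 ≤ T - 2 * k := by
      by_contra hc
      push Not at hc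
      nlinarith
    have h5 : ((a : ℤ) - k) * k ≤ (k : ℤ) * a - 2 := by nlinarith
    calc 2 * ((a : ℤ) - k) * (v - 2) = ((a : ℤ) - k) * (2 * (v - 2)) := by ring
      _ ≤ ((a : ℤ) - k) * (k * (T - 2 * k)) := mul_le_mul_of_nonneg_left h3 (by linarith)
      _ = (((a : ℤ) - k) * k) * (T - 2 * k) := by ring
      _ ≤ ((k : ℤ) * a - 2) * (T - 2 * k) := mul_le_mul_of_nonneg_right h5 h4

end Pool.Agent.MP_dcf9ac.H69
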