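import Pool.Agent.Lib.MP_dcf9ac_co.H69.Global

/-!
# The chain of cliques
-/

set_option autoImplicit false

namespace Pool.Agent.MP_dcf9ac.H69

variable {k a : ℕ} [NeZero a]

/-- `w` is in the same part as `u` and not both are special -/
def Same (u w : ZMod a × Fin k) : Prop := u.1 = w.1 ∧ ¬ ((u.2 : ℕ) < 2 ∧ (w.2 : ℕ) < 2)

/-- `w` is the parent of `u` -/
def Par (u w : ZMod a × Fin k) : Prop := w.1 = u.1 - 1 ∧ (w.2 : ℕ) = par k (u.2 : ℕ)

/-- The chain of cliques: `a` copies of `K_k` minus the edge `01`, arranged in a circle; every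
vertex is joined to its parent, one of the vertices `0`, `1` of the previous copy. -/
def chain (k a : ℕ) [NeZero a] : SimpleGraph (ZMod a × Fin k) :=
  SimpleGraph.fromRel fun u w => Same u w ∨ Par u w

/-- trace of `S` on the part `i` -/
def tr (S : Finset (ZMod a × Fin k)) (i : ZMod a) : Finset (Fin k) :=
  Finset.univ.filter fun q => (i, q) ∈ S

theorem mem_tr {S : Finset (ZMod a × Fin k)} {i : ZMod a} {q : Fin k} :
    q ∈ tr S i ↔ (i, q) ∈ S := by simp [tr]

theorem sum_tr {M : Type} [AddCommMonoid M] (S : Finset (ZMod a × Fin k))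
    (f : ZMod a × Fin k → M) : ∑ u ∈ S, f u = ∑ i, ∑ q ∈ tr S i, f (i, q) := by
  have h1 : ∑ u ∈ S, f u = ∑ u, if u ∈ S then f u else 0 := by
    rw [Finset.sum_ite_mem, Finset.univ_inter]
  rw [h1, Fintype.sum_prod_type]
  apply Finset.sum_congr rfl
  intro i _
  rw [tr, Finset.sum_filter]

theorem card_tr (S : Finset (ZMod a × Fin k)) : ∑ i, (tr S i).card = S.card := by
  rw [Finset.card_eq_sum_ones, sum_tr]
  apply Finset.sum_congr rfl
  intro i _
  rw [Finset.card_eq_sum_ones]

open Classical in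
/-- ordered adjacent pairs inside `S` -/
noncomputable def deg2 (S : Finset (ZMod a × Fin k)) : ℕ :=
  ∑ u ∈ S, (S.filter fun w => (chain k a).Adj u w).card

open Classical in
theorem deg_le (S : Finset (ZMod a × Fin k)) (u : ZMod a × Fin k) :
    (S.filter fun w => (chain k a).Adj u w).card ≤
      (S.filter fun w => u ≠ w ∧ Same u w).card + (S.filter fun w => Par u w).card +
        (S.filter fun w => Par w u).card := by
  have h : (S.filter fun w => (chain k a).Adj u w) ⊆
      ((S.filter fun w => u ≠ w ∧ Same u w) ∪ (S.filter fun w => Par u w)) ∪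
        (S.filter fun w => Par w u) := by
    intro w hw
    simp only [Finset.mem_filter, chain, SimpleGraph.fromRel_adj] at hw
    simp only [Finset.mem_union, Finset.mem_filter]
    obtain ⟨hwS, hne, (h1 | h1) | (h1 | h1)⟩ := hw
    · exact Or.inl (Or.inl ⟨hwS, hne, h1⟩)
    · exact Or.inl (Or.inr ⟨hwS, h1⟩)
    · refine Or.inl (Or.inl ⟨hwS, hne, h1.1.symm, fun hc => h1.2 ⟨hc.2, hc.1⟩⟩)
    · exact Or.inr ⟨hwS, h1⟩
  refine (Finset.card_le_card h).trans ?_
  refine (Finset.card_union_le _ _).trans ?_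
  gcongr
  exact Finset.card_union_le _ _

open Classical in
theorem sum_par (S : Finset (ZMod a × Fin k)) :
    ∑ u ∈ S, (S.filter fun w => Par u w).card = ∑ i, cr (tr S (i - 1)) (tr S i) := by
  rw [sum_tr]
  apply Finset.sum_congr rfl
  intro i _
  unfold cr
  rw [Finset.card_filter]
  apply Finset.sum_congr rfl
  intro q _
  split_ifs with h
  · obtain ⟨p, hp, hpq⟩ := h
    rw [Finset.card_eq_one]
    refine ⟨(i - 1, p), ?_⟩
    ext w
    rw [Finset.mem_filter, Finset.mem_singleton]
    constructor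
    · rintro ⟨-, h1, h2⟩
      exact Prod.ext h1 (Fin.ext (h2.trans hpq.symm))
    · rintro rfl
      exact ⟨mem_tr.1 hp, rfl, hpq⟩
  · rw [Finset.card_eq_zero, Finset.filter_eq_empty_iff]
    rintro w hw ⟨h1, h2⟩
    apply h
    refine ⟨w.2, ?_, h2⟩
    rw [mem_tr, ← h1]
    exact hw

open Classical in
theorem sum_child (S : Finset (ZMod a × Fin k)) :
    ∑ u ∈ S, (S.filter fun w => Par w u).card = ∑ u ∈ S, (S.filter fun w => Par u w).card := by
  simp only [Finset.card_filter]
  rw [Finset.sum_comm]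

open Classical in
theorem sum_same (S : Finset (ZMod a × Fin k)) (i : ZMod a) :
    ((∑ q ∈ tr S i, (S.filter fun w => (i, q) ≠ w ∧ Same (i, q) w).card : ℕ) : ℤ) ≤
      ((tr S i).card : ℤ) * ((tr S i).card - 1) - (if Two (tr S i) then 2 else 0) := by
  set F := tr S i with hF
  have hle : ∀ q ∈ F, ((S.filter fun w => (i, q) ≠ w ∧ Same (i, q) w).card : ℤ) ≤
      (((F.erase q).filter fun p : Fin k => ¬ ((q : ℕ) < 2 ∧ (p : ℕ) < 2)).card : ℤ) := by
    intro q hq
    have : (S.filter fun w => (i, q) ≠ w ∧ Same (i, q) w).card ≤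
        ((F.erase q).filter fun p : Fin k => ¬ ((q : ℕ) < 2 ∧ (p : ℕ) < 2)).card := by
      apply Finset.card_le_card_of_injOn (fun w => w.2)
      · intro w hw
        obtain ⟨h1, h2, h3, h4⟩ := Finset.mem_filter.1 (Finset.mem_coe.1 hw)
        refine Finset.mem_coe.2 (Finset.mem_filter.2 ⟨Finset.mem_erase.2 ⟨?_, ?_⟩, h4⟩)
        · intro hc
          apply h2
          exact Prod.ext h3 hc.symm
        · rw [hF, mem_tr]
          have : ((i, w.2) : ZMod a × Fin k) = w := Prod.ext h3 rfl
          rw [this]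
          exact h1
      · intro w hw w' hw' h
        obtain ⟨-, -, h3, -⟩ := Finset.mem_filter.1 (Finset.mem_coe.1 hw)
        obtain ⟨-, -, h3', -⟩ := Finset.mem_filter.1 (Finset.mem_coe.1 hw')
        exact Prod.ext (h3.symm.trans h3') h
    exact_mod_cast this
  push_cast
  refine (Finset.sum_le_sum hle).trans ?_
  split_ifs with h
  · obtain ⟨⟨p0, hp0, h0⟩, ⟨p1, hp1, h1⟩⟩ := h
    have hne : p0 ≠ p1 := by
      rintro rfl
      omega
    have hb : ∀ q ∈ F, (((F.erase q).filter fun p : Fin k => ¬ ((q : ℕ) < 2 ∧ (p : ℕ) < 2)).card : ℤ) ≤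
        ((F.card : ℤ) - 1) - (if q = p0 then 1 else 0) - (if q = p1 then 1 else 0) := by
      intro q hq
      have he : ((F.erase q).card : ℤ) = F.card - 1 := by
        rw [Finset.card_erase_of_mem hq]
        have := Finset.card_pos.2 ⟨q, hq⟩
        omega
      by_cases e0 : q = p0
      · subst e0
        rw [if_pos rfl, if_neg hne]
        have hlt : ((F.erase q).filter fun p : Fin k => ¬ ((q : ℕ) < 2 ∧ (p : ℕ) < 2)).card <
            (F.erase q).card := by
          apply Finset.card_lt_card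
          rw [Finset.filter_ssubset]
          exact ⟨p1, Finset.mem_erase.2 ⟨hne.symm, hp1⟩, by omega⟩
        omega
      · by_cases e1 : q = p1
        · subst e1
          rw [if_neg e0, if_pos rfl]
          have hlt : ((F.erase q).filter fun p : Fin k => ¬ ((q : ℕ) < 2 ∧ (p : ℕ) < 2)).card <
              (F.erase q).card := by
            apply Finset.card_lt_card
            rw [Finset.filter_ssubset]
            exact ⟨p0, Finset.mem_erase.2 ⟨hne, hp0⟩, by omega⟩
          omega
        · rw [if_neg e0, if_neg e1]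
          have := Finset.card_filter_le (F.erase q) fun p : Fin k => ¬ ((q : ℕ) < 2 ∧ (p : ℕ) < 2)
          omega
    refine (Finset.sum_le_sum hb).trans (le_of_eq ?_)
    rw [Finset.sum_sub_distrib, Finset.sum_sub_distrib, Finset.sum_const, Finset.sum_ite_eq',
      Finset.sum_ite_eq', if_pos hp0, if_pos hp1, nsmul_eq_mul]
    ring
  · have hb : ∀ q ∈ F, (((F.erase q).filter fun p : Fin k => ¬ ((q : ℕ) < 2 ∧ (p : ℕ) < 2)).card : ℤ) ≤
        ((F.card : ℤ) - 1) := by
      intro q hq
      have he : ((F.erase q).card : ℤ) = F.card - 1 := by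
        rw [Finset.card_erase_of_mem hq]
        have := Finset.card_pos.2 ⟨q, hq⟩
        omega
      have := Finset.card_filter_le (F.erase q) fun p : Fin k => ¬ ((q : ℕ) < 2 ∧ (p : ℕ) < 2)
      omega
    refine (Finset.sum_le_sum hb).trans (le_of_eq ?_)
    rw [Finset.sum_const, nsmul_eq_mul]
    ring

/-- The number of ordered adjacent pairs in `S`. -/
theorem deg2_le (S : Finset (ZMod a × Fin k)) :
    (deg2 S : ℤ) ≤ ((k : ℤ) + 1) * S.card - ∑ i, cc (tr S (i - 1)) (tr S i) := by
  classical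
  have h1 : deg2 S ≤ ∑ u ∈ S, ((S.filter fun w => u ≠ w ∧ Same u w).card +
      (S.filter fun w => Par u w).card + (S.filter fun w => Par w u).card) := by
    unfold deg2
    apply Finset.sum_le_sum
    intro u _
    convert deg_le S u
  rw [Finset.sum_add_distrib, Finset.sum_add_distrib, sum_child, sum_par, sum_tr] at h1
  have h2 : ((∑ i, ∑ q ∈ tr S i, (S.filter fun w => (i, q) ≠ w ∧ Same (i, q) w).card : ℕ) : ℤ) ≤
      ∑ i, (((tr S i).card : ℤ) * ((tr S i).card - 1) - (if Two (tr S i) then 2 else 0)) := by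
    push_cast
    apply Finset.sum_le_sum
    intro i _
    have := sum_same S i
    push_cast at this
    exact this
  have h3 : ((k : ℤ) + 1) * S.card - ∑ i, cc (tr S (i - 1)) (tr S i) =
      ∑ i, (((tr S i).card : ℤ) * ((tr S i).card - 1) - (if Two (tr S i) then 2 else 0)) +
        2 * ∑ i, (cr (tr S (i - 1)) (tr S i) : ℤ) := by
    rw [← card_tr S]
    push_cast
    rw [Finset.mul_sum, ← Finset.sum_sub_distrib, Finset.mul_sum, ← Finset.sum_add_distrib]
    apply Finset.sum_congr rfl
    intro i _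
    unfold cc
    ring
  rw [h3]
  have h4 : (deg2 S : ℤ) ≤
      ((∑ i, ∑ q ∈ tr S i, (S.filter fun w => (i, q) ≠ w ∧ Same (i, q) w).card : ℕ) : ℤ) +
        ((∑ i, cr (tr S (i - 1)) (tr S i) : ℕ) : ℤ) +
        ((∑ i, cr (tr S (i - 1)) (tr S i) : ℕ) : ℤ) := by
    exact_mod_cast h1
  push_cast at h4 h2 ⊢
  linarith

/-- independent sets have at most `a` vertices -/
theorem indep_card_le (ha : 2 ≤ a) (I : Finset (ZMod a × Fin k))
    (hI : ∀ u ∈ I, ∀ w ∈ I, ¬ (chain k a).Adj u w) : I.card ≤ a := by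
  classical
  have hsame : ∀ i : ZMod a, ∀ p ∈ tr I i, ∀ q ∈ tr I i, p ≠ q → (p : ℕ) < 2 ∧ (q : ℕ) < 2 := by
    intro i p hp q hq hpq
    by_contra hc
    apply hI (i, p) (mem_tr.1 hp) (i, q) (mem_tr.1 hq)
    rw [chain, SimpleGraph.fromRel_adj]
    exact ⟨fun h => hpq (Prod.ext_iff.1 h).2, Or.inl (Or.inl ⟨rfl, hc⟩)⟩
  have htwo : ∀ i : ZMod a, (tr I i).card ≤ 2 := by
    intro i
    by_contra hc
    push Not at hc
    obtain ⟨p, q, r, hp, hq, hr, hpq, hpr, hqr⟩ := Finset.two_lt_card_iff.1 hc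
    have h1 := hsame i p hp q hq hpq
    have h2 := hsame i p hp r hr hpr
    have e1 : (p : ℕ) ≠ q := fun h => hpq (Fin.ext h)
    have e2 : (p : ℕ) ≠ r := fun h => hpr (Fin.ext h)
    have e3 : (q : ℕ) ≠ r := fun h => hqr (Fin.ext h)
    omega
  have hne : ∀ i : ZMod a, i + 1 ≠ i := by
    intro i h
    have h8 : (1 : ZMod a) = 0 := by linear_combination h
    have h9 : ((1 : ℕ) : ZMod a) = 0 := by exact_mod_cast h8
    have h10 := (ZMod.natCast_eq_zero_iff _ _).1 h9
    have := Nat.le_of_dvd one_pos h10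
    omega
  have hnext : ∀ i : ZMod a, (tr I i).card = 2 → (tr I (i + 1)).card = 0 := by
    intro i hi
    obtain ⟨p, q, hpq, hset⟩ := Finset.card_eq_two.1 hi
    have hp : p ∈ tr I i := by rw [hset]; simp
    have hq : q ∈ tr I i := by rw [hset]; simp
    have h1 := hsame i p hp q hq hpq
    have e1 : (p : ℕ) ≠ q := fun h => hpq (Fin.ext h)
    rw [Finset.card_eq_zero, Finset.eq_empty_iff_forall_notMem]
    intro s hs
    -- the parent of `(i + 1, s)` is `p` or `q`
    have h2 : ∃ t ∈ tr I i, (t : ℕ) = par k (s : ℕ) := by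
      have h3 : par k (s : ℕ) < 2 := by
        unfold par
        split_ifs <;> omega
      by_cases h4 : (p : ℕ) = par k (s : ℕ)
      · exact ⟨p, hp, h4⟩
      · exact ⟨q, hq, by omega⟩
    obtain ⟨t, ht, hts⟩ := h2
    apply hI (i + 1, s) (mem_tr.1 hs) (i, t) (mem_tr.1 ht)
    rw [chain, SimpleGraph.fromRel_adj]
    refine ⟨fun heq => hne i (Prod.ext_iff.1 heq).1, Or.inl (Or.inr ⟨?_, hts⟩)⟩
    simp
  -- count
  have hle : ∀ i : ZMod a, (tr I i).card + (if (tr I i).card = 0 then 1 else 0) ≤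
      1 + (if (tr I (i + 1)).card = 0 then 1 else 0) := by
    intro i
    have h1 := htwo i
    by_cases h2 : (tr I i).card = 2
    · have h3 := hnext i h2
      rw [if_neg (by omega), if_pos h3]
      omega
    · split_ifs <;> omega
  have hsum := Finset.sum_le_sum fun i (_ : i ∈ (Finset.univ : Finset (ZMod a))) => hle i
  rw [Finset.sum_add_distrib, Finset.sum_add_distrib, card_tr, Finset.sum_const, Finset.card_univ,
    ZMod.card] at hsum
  have hshift : ∑ i : ZMod a, (if (tr I (i + 1)).card = 0 then 1 else 0) =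
      ∑ i : ZMod a, (if (tr I i).card = 0 then 1 else 0) :=
    Equiv.sum_comp (Equiv.addRight (1 : ZMod a)) fun i => if (tr I i).card = 0 then 1 else 0
  rw [hshift] at hsum
  simp only [smul_eq_mul, mul_one] at hsum
  omega

end Pool.Agent.MP_dcf9ac.H69
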