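import Mathlib

/-!
# Local inequalities for the chain of cliques

`k` is the size of the parts, `F`, `E` are subsets of `Fin k` (the traces of a vertex set on two
consecutive parts).  The vertex `q` of a part is joined to exactly one vertex (`par q`, one of
the two first vertices) of the previous part.
-/

set_option autoImplicit false

namespace Pool.Agent.MP_dcf9ac.H69

variable {k : ℕ}

/-- the position (0 or 1) of the neighbour in the previous part of the vertex at position `q` -/
def par (k : ℕ) (q : ℕ) : ℕ := if q < (k + 1) / 2 then 0 else 1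

/-- number of elements of `F` whose parent is in `E` -/
def cr (E F : Finset (Fin k)) : ℕ :=
  (F.filter fun q : Fin k => ∃ p ∈ E, (p : ℕ) = par k (q : ℕ)).card

/-- both special vertices are in `F` -/
def Two (F : Finset (Fin k)) : Prop := (∃ p ∈ F, (p : ℕ) = 0) ∧ (∃ p ∈ F, (p : ℕ) = 1)

open Classical in
/-- the contribution of a part -/
noncomputable def cc (E F : Finset (Fin k)) : ℤ :=
  (F.card : ℤ) * (k + 2 - F.card) + (if Two F then 2 else 0) - 2 * cr E F

theorem cr_le (E F : Finset (Fin k)) : cr E F ≤ F.card := Finset.card_filter_le _ _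

theorem card_le_k (F : Finset (Fin k)) : F.card ≤ k := by
  have := Finset.card_le_univ F
  simpa using this

theorem two_of_card (hk : 3 ≤ k) (F : Finset (Fin k)) (h : F.card = k) : Two F := by
  have hF : F = Finset.univ := by
    apply Finset.eq_univ_of_card
    simpa using h
  subst hF
  exact ⟨⟨⟨0, by omega⟩, Finset.mem_univ _, rfl⟩, ⟨⟨1, by omega⟩, Finset.mem_univ _, rfl⟩⟩

/-- the contribution without the bonus -/
theorem cc_ge (E F : Finset (Fin k)) :
    (F.card : ℤ) * (k + 2 - F.card) - 2 * cr E F ≤ cc E F := by
  unfold cc
  split_ifs <;> linarith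

theorem cc_two {E F : Finset (Fin k)} (h : Two F) :
    cc E F = (F.card : ℤ) * (k + 2 - F.card) + 2 - 2 * cr E F := by
  unfold cc
  rw [if_pos h]

theorem w_nonneg (hk : 3 ≤ k) (E F : Finset (Fin k)) :
    0 ≤ (k : ℤ) * cc E F - 2 * F.card := by
  have h1 := cr_le E F
  have h2 := card_le_k F
  have h3 := cc_ge E F
  have h1' : (cr E F : ℤ) ≤ F.card := by exact_mod_cast h1
  have hk' : (3 : ℤ) ≤ k := by exact_mod_cast hk
  rcases Nat.eq_or_lt_of_le h2 with h | h
  · have h4 := cc_two (E := E) (two_of_card hk F h)
    have h5 : (F.card : ℤ) = k := by exact_mod_cast h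
    rw [h5] at h4 h1' ⊢
    have : (2 : ℤ) ≤ cc E F := by rw [h4]; linarith
    nlinarith
  · have h5 : (F.card : ℤ) + 1 ≤ k := by exact_mod_cast h
    have h6 : (0 : ℤ) ≤ F.card := by positivity
    have h7 : (F.card : ℤ) * (k - F.card) ≤ cc E F := by nlinarith
    have h8 : (F.card : ℤ) * 1 ≤ F.card * (k - F.card) :=
      mul_le_mul_of_nonneg_left (by linarith) h6
    nlinarith

theorem cc_ge_two (hk : 3 ≤ k) (E F : Finset (Fin k)) (hF : F.Nonempty) : 2 ≤ cc E F := by
  have h1 := cr_le E F
  have h2 := card_le_k F
  have h3 := cc_ge E F
  have h1' : (cr E F : ℤ) ≤ F.card := by exact_mod_cast h1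
  have hk' : (3 : ℤ) ≤ k := by exact_mod_cast hk
  rcases Nat.eq_or_lt_of_le h2 with h | h
  · have h4 := cc_two (E := E) (two_of_card hk F h)
    have h5 : (F.card : ℤ) = k := by exact_mod_cast h
    rw [h5] at h4 h1'
    rw [h4]
    linarith
  · have h5 : (F.card : ℤ) + 1 ≤ k := by exact_mod_cast h
    have h6 : (1 : ℤ) ≤ F.card := by exact_mod_cast hF.card_pos
    have h7 : (F.card : ℤ) * (k - F.card) ≤ cc E F := by nlinarith
    have h8 : (k : ℤ) - 1 ≤ F.card * (k - F.card) := by nlinarith
    linarith

/-- no special vertex in the previous part -/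
def NoS (E : Finset (Fin k)) : Prop := ∀ p ∈ E, 2 ≤ (p : ℕ)

theorem cr_zero {E : Finset (Fin k)} (hE : NoS E) (F : Finset (Fin k)) : cr E F = 0 := by
  unfold cr
  rw [Finset.card_eq_zero, Finset.filter_eq_empty_iff]
  rintro q - ⟨p, hp, h⟩
  have h2 := hE p hp
  unfold par at h
  split_ifs at h <;> omega

theorem w_start_one {E F : Finset (Fin k)} (hE : NoS E) (hF : F.card = 1) :
    (k : ℤ) ^ 2 + k - 2 ≤ (k : ℤ) * cc E F - 2 * F.card := by
  have h3 := cc_ge E F
  rw [cr_zero hE, hF] at h3
  rw [hF]
  push_cast at h3 ⊢
  have hk : (0 : ℤ) ≤ k := by positivity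
  nlinarith

theorem w_start_two (hk : 3 ≤ k) {E F : Finset (Fin k)} (hE : NoS E) (hF : 2 ≤ F.card) :
    2 * (k : ℤ) ^ 2 - 4 ≤ (k : ℤ) * cc E F - 2 * F.card := by
  have h2 := card_le_k F
  have h3 := cc_ge E F
  rw [cr_zero hE] at h3
  push_cast at h3
  have hk' : (3 : ℤ) ≤ k := by exact_mod_cast hk
  have hF' : (2 : ℤ) ≤ F.card := by exact_mod_cast hF
  rcases Nat.eq_or_lt_of_le h2 with h | h
  · have h4 := cc_two (E := E) (two_of_card hk F h)
    rw [cr_zero hE] at h4
    have h5 : (F.card : ℤ) = k := by exact_mod_cast h
    rw [h5] at h4 ⊢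
    rw [h4]
    push_cast
    nlinarith
  · have h5 : (F.card : ℤ) + 1 ≤ k := by exact_mod_cast h
    generalize (F.card : ℤ) = v at *
    have h6 : (0 : ℤ) ≤ (v - 2) * ((k : ℤ) ^ 2 - 2 - k * v) := by
      apply mul_nonneg (by linarith)
      nlinarith
    nlinarith

/-- the previous part contains one vertex only -/
theorem w_next (hk : 3 ≤ k) {E F : Finset (Fin k)} (hE : E.card = 1) (hF : F.Nonempty) :
    (k : ℤ) ^ 2 - k - 2 ≤ (k : ℤ) * cc E F - 2 * F.card := by
  obtain ⟨p, rfl⟩ := Finset.card_eq_one.1 hE
  have h1 := cr_le {p} F
  have h2 := card_le_k F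
  have h3 := cc_ge {p} F
  have h1' : (cr {p} F : ℤ) ≤ F.card := by exact_mod_cast h1
  have hk' : (3 : ℤ) ≤ k := by exact_mod_cast hk
  have hF1 : 1 ≤ F.card := hF.card_pos
  -- at most `(k+1)/2` elements have their parent equal to `p`
  have hcr : 2 * cr {p} F ≤ k + 1 := by
    have hsub : (F.filter fun q : Fin k => ∃ p' ∈ ({p} : Finset (Fin k)), (p' : ℕ) = par k (q : ℕ)) ⊆
        Finset.univ.filter fun q : Fin k => par k (q : ℕ) = (p : ℕ) := by
      intro q hq
      simp only [Finset.mem_filter, Finset.mem_singleton, exists_eq_left] at hq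
      simp only [Finset.mem_filter, Finset.mem_univ, true_and]
      exact hq.2.symm
    have hle : cr {p} F ≤ (Finset.univ.filter fun q : Fin k => par k (q : ℕ) = (p : ℕ)).card :=
      Finset.card_le_card hsub
    have hcount : 2 * (Finset.univ.filter fun q : Fin k => par k (q : ℕ) = (p : ℕ)).card ≤ k + 1 := by
      by_cases h0 : (p : ℕ) = 0
      · have hmap : (Finset.univ.filter fun q : Fin k => par k (q : ℕ) = (p : ℕ)).card ≤
            (Finset.range ((k + 1) / 2)).card := by
          apply Finset.card_le_card_of_injOn (fun q : Fin k => (q : ℕ))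
          · intro q hq
            simp only [Finset.coe_filter, Finset.mem_univ, true_and, Set.mem_ofPred_eq] at hq
            rw [h0] at hq
            simp only [Finset.coe_range, Set.mem_Iio]
            by_contra hc
            unfold par at hq
            rw [if_neg (by omega)] at hq
            omega
          · intro x _ y _ h
            exact Fin.ext h
        rw [Finset.card_range] at hmap
        omega
      · have hmap : (Finset.univ.filter fun q : Fin k => par k (q : ℕ) = (p : ℕ)).card ≤
            (Finset.Ico ((k + 1) / 2) k).card := by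
          apply Finset.card_le_card_of_injOn (fun q : Fin k => (q : ℕ))
          · intro q hq
            simp only [Finset.coe_filter, Finset.mem_univ, true_and, Set.mem_ofPred_eq] at hq
            simp only [Finset.coe_Ico, Set.mem_Ico]
            refine ⟨?_, q.isLt⟩
            by_contra hc
            unfold par at hq
            rw [if_pos (by omega)] at hq
            exact h0 hq.symm
          · intro x _ y _ h
            exact Fin.ext h
        rw [Nat.card_Ico] at hmap
        omega
    omega
  have hcr' : 2 * (cr {p} F : ℤ) ≤ k + 1 := by exact_mod_cast hcr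
  rcases Nat.eq_or_lt_of_le h2 with h | h
  · have h4 := cc_two (E := {p}) (two_of_card hk F h)
    have h5 : (F.card : ℤ) = k := by exact_mod_cast h
    rw [h5] at h4 ⊢
    rw [h4]
    nlinarith
  · have h5 : (F.card : ℤ) + 1 ≤ k := by exact_mod_cast h
    rcases Nat.eq_or_lt_of_le hF1 with h6 | h6
    · -- one vertex
      rw [← h6] at h3 h1' ⊢
      push_cast at h3 h1' ⊢
      nlinarith
    · rcases Nat.eq_or_lt_of_le (Nat.succ_le_of_lt h6) with h7 | h7
      · -- two vertices
        have h7' : F.card = 2 := h7.symm
        rcases Nat.eq_or_lt_of_le hk with h8 | h8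
        · -- k = 3
          subst h8
          by_cases hc : cr {p} F ≤ 1
          · have hc' : (cr {p} F : ℤ) ≤ 1 := by exact_mod_cast hc
            rw [h7'] at h3 ⊢
            push_cast at h3 ⊢
            linarith
          · -- then F = {0,1}
            have hc2 : cr {p} F = F.card := by omega
            have hall : ∀ q ∈ F, par 3 (q : ℕ) = (p : ℕ) := by
              unfold cr at hc2
              have := Finset.filter_card_eq hc2
              intro q hq
              obtain ⟨p', hp', hpp⟩ := this q hq
              rw [Finset.mem_singleton] at hp'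
              rw [← hpp, hp']
            have htwo : Two F := by
              have hsub : F ⊆ ({0, 1} : Finset (Fin 3)) := by
                by_contra hns
                obtain ⟨q, hq, hq2⟩ := Finset.not_subset.1 hns
                have hq3 : q = 2 := by
                  revert hq2
                  fin_cases q <;> simp
                subst hq3
                -- another element
                obtain ⟨q', hq', hne⟩ : ∃ q' ∈ F, q' ≠ 2 := by
                  by_contra hno
                  push Not at hno
                  have : F ⊆ {2} := fun x hx => Finset.mem_singleton.2 (hno x hx)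
                  have := Finset.card_le_card this
                  simp at this
                  omega
                have e1 := hall 2 hq
                have e2 := hall q' hq'
                rw [← e1] at e2
                revert e2 hne
                fin_cases q' <;> simp [par]
              have heq : F = ({0, 1} : Finset (Fin 3)) := by
                apply Finset.eq_of_subset_of_card_le hsub
                rw [h7']
                decide
              subst heq
              exact ⟨⟨0, by simp, rfl⟩, ⟨1, by simp, rfl⟩⟩
            rw [cc_two htwo, hc2, h7']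
            push_cast
        · have h8' : (4 : ℤ) ≤ k := by exact_mod_cast h8
          rw [h7'] at h3 h1' ⊢
          push_cast at h3 h1' ⊢
          nlinarith
      · -- at least three vertices, k at least 4
        have h7' : (3 : ℤ) ≤ F.card := by exact_mod_cast h7
        generalize (F.card : ℤ) = v at *
        have h9 : 3 * ((k : ℤ) - 1) ≤ v * (k + 2 - v) := by nlinarith
        nlinarith

end Pool.Agent.MP_dcf9ac.H69
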