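import Pool.Agent.Lib.MP_dcf9ac_co.H69.Density

/-!
# The chain on `Fin (k * a)` and small Ramsey numbers
-/

set_option autoImplicit false

namespace Pool.Agent.MP_dcf9ac.H69

/-- an identification of the vertex sets -/
noncomputable def eqv (k a : ℕ) [NeZero a] : ZMod a × Fin k ≃ Fin (k * a) :=
  Fintype.equivOfCardEq (by rw [Fintype.card_prod, ZMod.card, Fintype.card_fin, Fintype.card_fin, mul_comm])

/-- the chain on `Fin (k * a)` -/
noncomputable def chainFin (k a : ℕ) [NeZero a] : SimpleGraph (Fin (k * a)) :=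
  (chain k a).comap (eqv k a).symm

theorem chainFin_indep (k a : ℕ) [NeZero a] (ha : 2 ≤ a) : (chainFin k a).indepNum ≤ a := by
  classical
  obtain ⟨s, hs⟩ := (chainFin k a).exists_isNIndepSet_indepNum
  rw [← hs.card_eq]
  have h1 : (s.map (eqv k a).symm.toEmbedding).card ≤ a := by
    apply indep_card_le ha
    intro u hu w hw hadj
    rw [Finset.mem_map_equiv, Equiv.symm_symm] at hu hw
    have hne : eqv k a u ≠ eqv k a w := fun h => hadj.ne ((eqv k a).injective h)
    apply hs.isIndepSet (Finset.mem_coe.2 hu) (Finset.mem_coe.2 hw) hne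
    change (chain k a).Adj ((eqv k a).symm (eqv k a u)) ((eqv k a).symm (eqv k a w))
    rw [Equiv.symm_apply_apply, Equiv.symm_apply_apply]
    exact hadj
  rwa [Finset.card_map] at h1

open Classical in
theorem chainFin_sum (k a : ℕ) [NeZero a] (S : Finset (Fin (k * a))) :
    ∑ u ∈ S, (S.filter fun w => (chainFin k a).Adj u w).card =
      deg2 (S.map (eqv k a).symm.toEmbedding) := by
  unfold deg2
  rw [Finset.sum_map]
  apply Finset.sum_congr rfl
  intro u _
  rw [Finset.filter_map, Finset.card_map]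
  rfl

theorem chainFin_dens (k a : ℕ) [NeZero a] (hk : 3 ≤ k) (ha : k ≤ a) :
    ∀ x ∈ dens (chainFin k a), x ≤ ((k : ℝ) + 1) / 2 - ((a : ℝ) - k) / (k * a - 2) := by
  classical
  apply dens_le
  intro S hS
  rw [chainFin_sum]
  set S' := S.map (eqv k a).symm.toEmbedding with hS'
  have hc : S'.card = S.card := Finset.card_map _
  have h1 := deg2_le S'
  have h2 := sparsity hk ha (tr S') (by rw [card_tr, hc]; exact hS)
  rw [card_tr] at h2
  rw [← hc]
  set T : ℤ := ∑ i, cc (tr S' (i - 1)) (tr S' i) with hT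
  have h1' : (deg2 S' : ℝ) ≤ ((k : ℝ) + 1) * S'.card - T := by exact_mod_cast h1
  have h2' : 2 * ((a : ℝ) - k) * ((S'.card : ℝ) - 2) ≤ ((k : ℝ) * a - 2) * (T - 2 * k) := by
    exact_mod_cast h2
  have hk' : (3 : ℝ) ≤ k := by exact_mod_cast hk
  have ha' : (k : ℝ) ≤ a := by exact_mod_cast ha
  have hN : (0 : ℝ) < (k : ℝ) * a - 2 := by nlinarith
  have h3 : 2 * (((a : ℝ) - k) / (k * a - 2)) * ((S'.card : ℝ) - 2) ≤ T - 2 * k := by
    have : 2 * (((a : ℝ) - k) / (k * a - 2)) * ((S'.card : ℝ) - 2) =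
        (2 * ((a : ℝ) - k) * ((S'.card : ℝ) - 2)) / (k * a - 2) := by ring
    rw [this, div_le_iff₀ hN]
    linarith
  linarith

section Ramsey

variable {V : Type} [Fintype V] [DecidableEq V] (G : SimpleGraph V)

/-- no triangle -/
def NoTri : Prop := ∀ x y z, G.Adj x y → G.Adj x z → ¬ G.Adj y z

open Classical in
/-- independent set inside `S` -/
theorem ramsey_two (hG : NoTri G) (S : Finset V) (hS : 3 ≤ S.card) :
    ∃ T ⊆ S, T.card = 2 ∧ ∀ x ∈ T, ∀ y ∈ T, ¬ G.Adj x y := by
  obtain ⟨x, y, z, hx, hy, hz, hxy, hxz, hyz⟩ := Finset.two_lt_card_iff.1 hS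
  by_cases h1 : G.Adj x y
  · by_cases h2 : G.Adj x z
    · refine ⟨{y, z}, ?_, Finset.card_pair hyz, ?_⟩
      · intro w hw
        rcases Finset.mem_insert.1 hw with rfl | hw
        · exact hy
        · rw [Finset.mem_singleton.1 hw]
          exact hz
      · have h3 := hG x y z h1 h2
        intro u hu w hw
        rw [Finset.mem_insert, Finset.mem_singleton] at hu hw
        rcases hu with rfl | rfl <;> rcases hw with rfl | rfl
        · exact G.irrefl
        · exact h3
        · exact fun h => h3 h.symm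
        · exact G.irrefl
    · refine ⟨{x, z}, ?_, Finset.card_pair hxz, ?_⟩
      · intro w hw
        rcases Finset.mem_insert.1 hw with rfl | hw
        · exact hx
        · rw [Finset.mem_singleton.1 hw]
          exact hz
      · intro u hu w hw
        rw [Finset.mem_insert, Finset.mem_singleton] at hu hw
        rcases hu with rfl | rfl <;> rcases hw with rfl | rfl
        · exact G.irrefl
        · exact h2
        · exact fun h => h2 h.symm
        · exact G.irrefl
  · refine ⟨{x, y}, ?_, Finset.card_pair hxy, ?_⟩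
    · intro w hw
      rcases Finset.mem_insert.1 hw with rfl | hw
      · exact hx
      · rw [Finset.mem_singleton.1 hw]
        exact hy
    · intro u hu w hw
      rw [Finset.mem_insert, Finset.mem_singleton] at hu hw
      rcases hu with rfl | rfl <;> rcases hw with rfl | rfl
      · exact G.irrefl
      · exact h1
      · exact fun h => h1 h.symm
      · exact G.irrefl

open Classical in
/-- the induction step -/
theorem ramsey_step (hG : NoTri G) (n t : ℕ)
    (ih : ∀ S : Finset V, n ≤ S.card → ∃ T ⊆ S, T.card = t ∧ ∀ x ∈ T, ∀ y ∈ T, ¬ G.Adj x y)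
    (S : Finset V) (v : V) (hv : v ∈ S)
    (h : t + 1 ≤ (S.filter fun w => G.Adj v w).card ∨
      n + 1 + (S.filter fun w => G.Adj v w).card ≤ S.card) :
    ∃ T ⊆ S, T.card = t + 1 ∧ ∀ x ∈ T, ∀ y ∈ T, ¬ G.Adj x y := by
  rcases h with h | h
  · obtain ⟨T, hT, hTc⟩ := Finset.exists_subset_card_eq h
    refine ⟨T, fun x hx => (Finset.mem_filter.1 (hT hx)).1, hTc, ?_⟩
    intro x hx y hy
    exact hG v x y (Finset.mem_filter.1 (hT hx)).2 (Finset.mem_filter.1 (hT hy)).2
  · set S' := (S.filter fun w => ¬ G.Adj v w).erase v with hS'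
    have hvS : v ∈ S.filter fun w => ¬ G.Adj v w := Finset.mem_filter.2 ⟨hv, G.irrefl⟩
    have h1 : S'.card + 1 = (S.filter fun w => ¬ G.Adj v w).card :=
      Finset.card_erase_add_one hvS
    have h2 := Finset.card_filter_add_card_filter_not (s := S) (fun w => G.Adj v w)
    obtain ⟨T, hT, hTc, hTi⟩ := ih S' (by omega)
    have hvT : v ∉ T := fun hc => (Finset.mem_erase.1 (hT hc)).1 rfl
    have hnv : ∀ x ∈ T, ¬ G.Adj v x := fun x hx =>
      (Finset.mem_filter.1 (Finset.mem_erase.1 (hT hx)).2).2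
    refine ⟨insert v T, ?_, ?_, ?_⟩
    · intro x hx
      rcases Finset.mem_insert.1 hx with rfl | hx
      · exact hv
      · exact (Finset.mem_filter.1 (Finset.mem_erase.1 (hT hx)).2).1
    · rw [Finset.card_insert_of_notMem hvT, hTc]
    · intro x hx y hy
      rcases Finset.mem_insert.1 hx with hx1 | hx1 <;>
        rcases Finset.mem_insert.1 hy with hy1 | hy1
      · rw [hx1, hy1]
        exact G.irrefl
      · rw [hx1]
        exact hnv y hy1
      · rw [hy1]
        exact fun hc => hnv x hx1 hc.symm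
      · exact hTi x hx1 y hy1

theorem ramsey_three (hG : NoTri G) (S : Finset V) (hS : 6 ≤ S.card) :
    ∃ T ⊆ S, T.card = 3 ∧ ∀ x ∈ T, ∀ y ∈ T, ¬ G.Adj x y := by
  classical
  obtain ⟨v, hv⟩ : ∃ v, v ∈ S := by
    by_contra hno
    push Not at hno
    have : S = ∅ := Finset.eq_empty_of_forall_notMem hno
    rw [this] at hS
    simp at hS
  exact ramsey_step G hG 3 2 (ramsey_two G hG) S v hv (by omega)

theorem ramsey_four (hG : NoTri G) (hV : Fintype.card V = 9) :
    ∃ T : Finset V, T.card = 4 ∧ ∀ x ∈ T, ∀ y ∈ T, ¬ G.Adj x y := by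
  classical
  have hdeg : ∀ v, ((Finset.univ : Finset V).filter fun w => G.Adj v w).card = G.degree v := by
    intro v
    rw [← G.card_neighborFinset_eq_degree]
    congr 1
    ext w
    simp
  by_cases h : ∃ v, G.degree v ≠ 3
  · obtain ⟨v, hv⟩ := h
    obtain ⟨T, -, hTc, hTi⟩ := ramsey_step G hG 6 3 (ramsey_three G hG) Finset.univ v
      (Finset.mem_univ v) (by rw [hdeg, Finset.card_univ, hV]; omega)
    exact ⟨T, hTc, hTi⟩
  · push Not at h
    exfalso
    have h1 := G.sum_degrees_eq_twice_card_edges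
    rw [Finset.sum_congr rfl fun v _ => h v, Finset.sum_const, Finset.card_univ, hV] at h1
    simp only [smul_eq_mul] at h1
    omega

end Ramsey

/-- a graph on `3 (r - 1)` vertices, `r ≤ 4`, without independent set of size `r`, has a
triangle -/
theorem exists_tri (a : ℕ) (ha : 1 ≤ a) (ha3 : a ≤ 3) (G : SimpleGraph (Fin (3 * a)))
    (hG : G.indepNum ≤ a) : ∃ x y z, G.Adj x y ∧ G.Adj x z ∧ G.Adj y z := by
  classical
  by_contra hno
  push Not at hno
  have hno' : NoTri G := hno
  have key : ∀ T : Finset (Fin (3 * a)), (∀ x ∈ T, ∀ y ∈ T, ¬ G.Adj x y) → T.card ≤ a := by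
    intro T hT
    refine le_trans (SimpleGraph.IsIndepSet.card_le_indepNum ?_) hG
    intro x hx y hy _
    exact hT x hx y hy
  have hcard : Fintype.card (Fin (3 * a)) = 3 * a := Fintype.card_fin _
  interval_cases a
  · obtain ⟨T, -, hTc, hTi⟩ := ramsey_two G hno' Finset.univ (by simp)
    have := key T hTi
    omega
  · obtain ⟨T, -, hTc, hTi⟩ := ramsey_three G hno' Finset.univ (by simp)
    have := key T hTi
    omega
  · obtain ⟨T, hTc, hTi⟩ := ramsey_four G hno' hcard
    have := key T hTi
    omega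

end Pool.Agent.MP_dcf9ac.H69
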